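import Pool.Agent.T2H57.IV.Fin

/-! # `z ^ 2 - 2` has at least three invariant ivy objects -/

set_option autoImplicit false

namespace Pool.Agent.Results.MP_6faade_an.ThreeInvariantIvyObjects

open Pool.Agent.T2H57.IV

/-- The quadratic polynomial `z ^ 2 - 2` is post-critically finite and it has (at least) three pairwise
distinct invariant ivy objects. -/
theorem result : (PS (-2)).Finite ∧
    ∃ C₁ ∈ Ivy (-2), ∃ C₂ ∈ Ivy (-2), ∃ C₃ ∈ Ivy (-2), C₁ ≠ C₂ ∧ C₁ ≠ C₃ ∧ C₂ ≠ C₃ ∧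
      Pull (-2) C₁ C₁ ∧ Pull (-2) C₂ C₂ ∧ Pull (-2) C₃ C₃ :=
  three

end Pool.Agent.Results.MP_6faade_an.ThreeInvariantIvyObjects
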